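import Mathlib
import Pool.Agent.Lib.MP_435399_an.LocMain

set_option autoImplicit false

open MeasureTheory Set Metric Real Complex Filter Topology ComplexConjugate

namespace Pool.Agent.Lib.MP_435399_an.ZO

open Pool.Agent.Lib.MP_435399_an

/-- An `L²` limit of holomorphic functions has a holomorphic representative. -/
lemma holo_rep {v : Lp ℂ 2 μD} {p : ℕ → Lp ℂ 2 μD} {u : ℕ → ℂ → ℂ}
    (hud : ∀ i, DifferentiableOn ℂ (u i) (ball 0 1)) (hue : ∀ i, p i =ᵐ[μD] u i)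
    (hlim : Tendsto p atTop (𝓝 v)) : ∃ g : ℂ → ℂ, DifferentiableOn ℂ g (ball 0 1) ∧ g =ᵐ[μD] v := by
  have hum : ∀ i, MemLp (u i) 2 μD := fun i => (Lp.memLp (p i)).ae_eq (hue i)
  have hL2 : Tendsto (fun i => ∫ w, ‖u i w - v w‖ ^ 2 ∂μD) atTop (𝓝 0) := by
    have h1 := (tendsto_iff_norm_sub_tendsto_zero.mp hlim).pow 2
    rw [zero_pow two_ne_zero] at h1
    refine h1.congr fun i => ?_
    rw [norm_sq_L2]
    refine integral_congr_ae ?_
    filter_upwards [Lp.coeFn_sub (p i) v, hue i] with w e1 e2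
    rw [e1, Pi.sub_apply, e2]
  have hvm : MemLp v 2 μD := Lp.memLp v
  set g : ℂ → ℂ := fun b => (π : ℂ)⁻¹ * ∫ w, v w * ((1 - b * conj w) ^ 2)⁻¹ ∂μD with hg
  have hπ : (π : ℂ) ≠ 0 := by exact_mod_cast pi_ne_zero
  have hb1 : Tendsto (fun i => ∫ w, (1 : ℝ) * ‖u i w - v w‖ ∂μD) atTop (𝓝 0) :=
    tendsto_integral_mul (u := fun _ => 1) (memLp_const 1) (fun i => (hum i).sub hvm) hL2
  have hbound : ∀ (ρ : ℝ), ρ < 1 → ∀ i b, ‖b‖ ≤ ρ →
      ‖u i b - g b‖ ≤ π⁻¹ * ((1 - ρ) ^ 2)⁻¹ * ∫ w, (1 : ℝ) * ‖u i w - v w‖ ∂μD := by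
    intro ρ hρ i b hb
    have hb' : ‖b‖ < 1 := hb.trans_lt hρ
    have i1 : IntegrableOn (u i) (ball (0 : ℂ) 1) := (hum i).integrable one_le_two
    have i2 : IntegrableOn v (ball (0 : ℂ) 1) := hvm.integrable one_le_two
    have e1 : u i b - g b = (π : ℂ)⁻¹ * ∫ w, (u i w - v w) * ((1 - b * conj w) ^ 2)⁻¹ ∂μD := by
      simp_rw [sub_mul]
      rw [integral_sub (integrableOn_mul_kernel i1 hb') (integrableOn_mul_kernel i2 hb'),
        reproducing (hud i) i1 hb', hg]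
      field_simp
    rw [e1, norm_mul, norm_inv, Complex.norm_real, Real.norm_of_nonneg pi_pos.le, mul_assoc,
      ← integral_const_mul]
    refine mul_le_mul_of_nonneg_left ?_ (inv_nonneg.mpr pi_pos.le)
    refine norm_integral_le_of_norm_le (((i1.sub i2).norm.const_mul _).const_mul _) ?_
    refine (ae_restrict_iff' measurableSet_ball).mpr (Eventually.of_forall fun w hw => ?_)
    rw [norm_mul, one_mul, mul_comm]
    refine mul_le_mul_of_nonneg_right ?_ (norm_nonneg _)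
    refine (norm_kernel_le hb' ?_).trans ?_
    · rw [Complex.norm_conj]; exact (mem_ball_zero_iff.mp hw).le
    · have : 0 < 1 - ρ := by linarith
      exact inv_anti₀ (by positivity) (pow_le_pow_left₀ this.le (by linarith) 2)
  have hb2 : ∀ ρ : ℝ, Tendsto (fun i => π⁻¹ * ((1 - ρ) ^ 2)⁻¹ * ∫ w, (1 : ℝ) * ‖u i w - v w‖ ∂μD)
      atTop (𝓝 0) := fun ρ => by simpa using hb1.const_mul (π⁻¹ * ((1 - ρ) ^ 2)⁻¹)
  have hgd : DifferentiableOn ℂ g (ball 0 1) :=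
    differentiableOn_of_approx hud fun ρ _ hρ => ⟨_, hb2 ρ, hbound ρ hρ⟩
  have hpt : ∀ b ∈ ball (0 : ℂ) 1, Tendsto (fun i => u i b) atTop (𝓝 (g b)) := by
    intro b hb
    rw [tendsto_iff_norm_sub_tendsto_zero]
    exact squeeze_zero (fun _ => norm_nonneg _)
      (fun i => hbound ‖b‖ (mem_ball_zero_iff.mp hb) i b le_rfl) (hb2 ‖b‖)
  refine ⟨g, hgd, ?_⟩
  obtain ⟨ns, hns, hae⟩ := (tendstoInMeasure_of_tendsto_Lp hlim).exists_seq_tendsto_ae
  have h1 : ∀ᵐ w ∂μD, ∀ i, p i w = u i w := ae_all_iff.mpr hue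
  filter_upwards [hae, h1, ae_restrict_mem measurableSet_ball] with w e1 e2 e3
  simp_rw [e2] at e1
  exact tendsto_nhds_unique ((hpt w e3).comp hns.tendsto_atTop) e1

/-- A bounded functional on `L²` acts on holomorphic functions as the pairing with a Bergman
function. -/
theorem exists_rep (φ : Lp ℂ 2 μD →L[ℂ] ℂ) :
    ∃ g : ℂ → ℂ, DifferentiableOn ℂ g (ball 0 1) ∧ MemLp g 2 μD ∧
      ∀ (u : ℂ → ℂ) (_ : DifferentiableOn ℂ u (ball 0 1)) (hm : MemLp u 2 μD),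
        φ (hm.toLp u) = conj (∫ w, g w * conj (u w) ∂μD) := by
  let V : Submodule ℂ (Lp ℂ 2 μD) :=
    { carrier := {x | ∃ u : ℂ → ℂ, DifferentiableOn ℂ u (ball 0 1) ∧ x =ᵐ[μD] u}
      add_mem' := by
        rintro x y ⟨u, hu, e1⟩ ⟨v, hv, e2⟩
        exact ⟨u + v, hu.add hv, (Lp.coeFn_add x y).trans (e1.add e2)⟩
      zero_mem' := ⟨0, differentiableOn_const 0, Lp.coeFn_zero ℂ 2 μD⟩
      smul_mem' := by
        rintro c x ⟨u, hu, e1⟩
        exact ⟨c • u, hu.const_smul c, (Lp.coeFn_smul c x).trans (e1.const_smul c)⟩ }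
  obtain ⟨y, hy, v, hv, hyv⟩ := V.topologicalClosure.exists_add_mem_mem_orthogonal
    ((InnerProductSpace.toDual ℂ (Lp ℂ 2 μD)).symm φ)
  obtain ⟨p, hp, hpy⟩ := mem_closure_iff_seq_limit.mp
    (show y ∈ closure (V : Set (Lp ℂ 2 μD)) from hy)
  choose u hu hue using fun i => (show ∃ u : ℂ → ℂ, DifferentiableOn ℂ u (ball 0 1) ∧
    p i =ᵐ[μD] u from hp i)
  obtain ⟨g, hgd, hgy⟩ := holo_rep hu hue hpy
  refine ⟨g, hgd, (Lp.memLp y).ae_eq hgy.symm, fun f hf hm => ?_⟩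
  have h1 := (Submodule.mem_orthogonal' _ _).mp hv (hm.toLp f)
    (V.le_topologicalClosure ⟨f, hf, hm.coeFn_toLp⟩)
  rw [← InnerProductSpace.toDual_symm_apply, hyv, inner_add_left, h1, add_zero, L2.inner_def,
    ← integral_conj]
  refine integral_congr_ae ?_
  filter_upwards [hm.coeFn_toLp, hgy] with w e1 e2
  rw [RCLike.inner_apply, e1, e2]
  simp [mul_comm]

/-- Separation of a point from a subspace. -/
lemma exists_sep {E : Type} [NormedAddCommGroup E] [NormedSpace ℂ E] (W : Submodule ℂ E) {x : E}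
    (hx : x ∉ closure (W : Set E)) : ∃ Φ : E →L[ℂ] ℂ, (∀ a ∈ W, Φ a = 0) ∧ Φ x ≠ 0 := by
  obtain ⟨f, t, h1, h2⟩ := RCLike.geometric_hahn_banach_closed_point (𝕜 := ℂ)
    (W.restrictScalars ℝ).convex.closure isClosed_closure hx
  have h0 : 0 < t := by simpa using h1 0 (subset_closure W.zero_mem)
  refine ⟨f, fun a ha => ?_, fun h => ?_⟩
  · by_contra h
    have h3 := h1 (((t : ℂ) / f a) • a) (subset_closure (W.smul_mem _ ha))
    rw [map_smul, smul_eq_mul, div_mul_cancel₀ _ h] at h3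
    simp at h3
  · rw [h] at h2
    simp at h2
    linarith

/-- A pair of functionals, one on the disc and one on `Γ`, that annihilates all kernels. -/
theorem exists_pair {z : ℕ → ℂ} (hz : ∀ n, ‖z n‖ < 1) {Γ : Set ℂ}
    (hb : ∀ n, ∃ C : ℝ, ∀ w ∈ Γ, ‖((1 - z n * w) ^ 2)⁻¹‖ ≤ C)
    {u : ℂ → ℂ} (hd : DifferentiableOn ℂ u (ball 0 1)) (hm : MemLp u 2 μD) {ε : ℝ} (hε : 0 < ε)
    (hfar : ∀ (s : Finset ℕ) (a : ℕ → ℂ), (∀ w ∈ Γ, ‖comb z s a w‖ ≤ ε) →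
      ε ≤ ∫ w, ‖u w - comb z s a w‖ ^ 2 ∂μD) :
    ∃ (g : ℂ → ℂ) (L : (ℂ → ℂ) →ₗ[ℂ] ℂ) (N : ℝ), DifferentiableOn ℂ g (ball 0 1) ∧
      MemLp g 2 μD ∧ (∃ w ∈ ball (0 : ℂ) 1, g w ≠ 0) ∧ 0 ≤ N ∧
      (∀ (ψ : ℂ → ℂ) (C : ℝ), 0 ≤ C → (∀ w ∈ Γ, ‖ψ (conj w)‖ ≤ C) → ‖L ψ‖ ≤ N * C) ∧
      ∀ n, g (conj (z n)) + L (fun x => ((1 - conj (z n) * x) ^ 2)⁻¹) = 0 := by
  have hmem : ∀ (ψ : ℂ → ℂ) (C : ℝ), (∀ w ∈ Γ, ‖ψ w‖ ≤ C) → Memℓp (fun w : Γ => ψ w) ⊤ :=
    fun ψ C h => memℓp_infty ⟨C, by rintro _ ⟨w, rfl⟩; exact h w w.2⟩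
  let B : Submodule ℂ (ℂ → ℂ) :=
    { carrier := {ψ | Memℓp (fun w : Γ => ψ w) ⊤}
      add_mem' := fun {ψ χ} h1 h2 => Memℓp.add (E := fun _ : Γ => ℂ) (p := ⊤)
        (f := fun w : Γ => ψ w) (g := fun w : Γ => χ w) h1 h2
      zero_mem' := zero_memℓp (E := fun _ : Γ => ℂ) (p := ⊤)
      smul_mem' := fun c ψ h =>
        Memℓp.const_smul (E := fun _ : Γ => ℂ) (p := ⊤) (f := fun w : Γ => ψ w) h c }
  let R : B →ₗ[ℂ] lp (fun _ : Γ => ℂ) ⊤ :=
    { toFun := fun ψ => ⟨fun w : Γ => ψ.1 w, ψ.2⟩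
      map_add' := fun _ _ => rfl
      map_smul' := fun _ _ => rfl }
  have hkB : ∀ n, (fun w => ((1 - z n * w) ^ 2)⁻¹) ∈ B := fun n =>
    (hb n).elim fun C h => hmem _ C h
  let kk : ℕ → Lp ℂ 2 μD × lp (fun _ : Γ => ℂ) ⊤ := fun n =>
    ((kernel_memLp (hz n)).toLp _, R ⟨_, hkB n⟩)
  have hrep : ∀ x ∈ Submodule.span ℂ (range kk), ∃ (s : Finset ℕ) (a : ℕ → ℂ),
      x.1 =ᵐ[μD] comb z s a ∧ ∀ w : Γ, x.2 w = comb z s a w := by
    intro x hx
    obtain ⟨c, rfl⟩ := Finsupp.mem_span_range_iff_exists_finsupp.mp hx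
    refine ⟨c.support, c, ?_, fun w => ?_⟩
    · unfold Finsupp.sum
      rw [Prod.fst_sum]
      have h1 : ∀ᵐ w ∂μD, ∀ n, (c n • kk n).1 w = c n * ((1 - z n * w) ^ 2)⁻¹ := by
        rw [ae_all_iff]
        intro n
        filter_upwards [Lp.coeFn_smul (c n) (kk n).1, (kernel_memLp (hz n)).coeFn_toLp]
          with w e1 e2
        rw [Prod.smul_fst, e1, Pi.smul_apply, e2, smul_eq_mul]
      filter_upwards [Lp.coeFn_finsetSum c.support (fun n => (c n • kk n).1), h1] with w e1 e2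
      rw [e1, Finset.sum_apply]
      exact Finset.sum_congr rfl fun n _ => e2 n
    · unfold Finsupp.sum
      rw [Prod.snd_sum, lp.coeFn_sum, Finset.sum_apply]
      rfl
  have hx : (hm.toLp u, (0 : lp (fun _ : Γ => ℂ) ⊤)) ∉
      closure (Submodule.span ℂ (range kk) : Set _) := by
    intro h
    obtain ⟨x, hx, hlt⟩ := Metric.mem_closure_iff.mp h (min ε (√ε))
      (lt_min hε (Real.sqrt_pos.mpr hε))
    obtain ⟨s, a, e1, e2⟩ := hrep x hx
    rw [Prod.dist_eq, max_lt_iff, lt_min_iff, lt_min_iff, dist_zero_left, dist_eq_norm] at hlt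
    have h1 := hfar s a fun w hw => by
      rw [← e2 ⟨w, hw⟩]
      exact (lp.norm_apply_le_norm ENNReal.top_ne_zero x.2 ⟨w, hw⟩).trans hlt.2.1.le
    have h2 : ∫ w, ‖u w - comb z s a w‖ ^ 2 ∂μD = ‖hm.toLp u - x.1‖ ^ 2 := by
      rw [norm_sq_L2]
      refine integral_congr_ae ?_
      filter_upwards [Lp.coeFn_sub (hm.toLp u) x.1, hm.coeFn_toLp, e1] with w e3 e4 e5
      rw [e3, Pi.sub_apply, e4, e5]
    have h3 : ‖hm.toLp u - x.1‖ ^ 2 < √ε ^ 2 :=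
      pow_lt_pow_left₀ hlt.1.2 (norm_nonneg _) two_ne_zero
    rw [Real.sq_sqrt hε.le] at h3
    linarith
  obtain ⟨Φ, hΦ, hΦx⟩ := exists_sep _ hx
  obtain ⟨g, hgd, hgm, hg⟩ := exists_rep (Φ.comp (ContinuousLinearMap.inl ℂ _ _))
  let Φ2 := Φ.comp (ContinuousLinearMap.inr ℂ (Lp ℂ 2 μD) (lp (fun _ : Γ => ℂ) ⊤))
  obtain ⟨Λ, hΛ⟩ := LinearMap.exists_extend (Φ2.toLinearMap.comp R)
  have hΛ' : ∀ ψ (h : ψ ∈ B), Λ ψ = Φ2 (R ⟨ψ, h⟩) := fun ψ h =>
    LinearMap.congr_fun hΛ ⟨ψ, h⟩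
  let L : (ℂ → ℂ) →ₗ[ℂ] ℂ :=
    { toFun := fun ψ => (π : ℂ)⁻¹ * conj (Λ fun w => conj (ψ (conj w)))
      map_add' := fun ψ χ => by
        have : (fun w => conj ((ψ + χ) (conj w))) =
            (fun w => conj (ψ (conj w))) + fun w => conj (χ (conj w)) := by
          ext w
          simp
        rw [this, map_add, map_add, mul_add]
      map_smul' := fun c ψ => by
        have : (fun w => conj ((c • ψ) (conj w))) = conj c • fun w => conj (ψ (conj w)) := by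
          ext w
          simp
        rw [this, map_smul]
        simp only [smul_eq_mul, map_mul, Complex.conj_conj, RingHom.id_apply]
        ring }
  have hπ : (π : ℂ) ≠ 0 := by exact_mod_cast pi_ne_zero
  refine ⟨g, L, π⁻¹ * ‖Φ2‖, hgd, hgm, ?_, by positivity, fun ψ C hC h => ?_, fun n => ?_⟩
  · by_contra hc
    push Not at hc
    refine hΦx ((hg u hd hm).trans ?_)
    rw [integral_eq_zero_of_ae, map_zero]
    filter_upwards [ae_restrict_mem measurableSet_ball] with w e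
    rw [hc w e, zero_mul, Pi.zero_apply]
  · have h1 : ∀ w ∈ Γ, ‖conj (ψ (conj w))‖ ≤ C := fun w hw => by
      rw [Complex.norm_conj]
      exact h w hw
    show ‖(π : ℂ)⁻¹ * conj (Λ fun w => conj (ψ (conj w)))‖ ≤ _
    rw [norm_mul, norm_inv, Complex.norm_real, Real.norm_of_nonneg pi_pos.le, Complex.norm_conj,
      hΛ' _ (hmem _ C h1), mul_assoc]
    refine mul_le_mul_of_nonneg_left (Φ2.le_of_opNorm_le_of_le le_rfl ?_) (inv_nonneg.mpr pi_pos.le)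
    exact lp.norm_le_of_forall_le hC fun w => h1 w w.2
  · have h1 := hΦ (kk n) (Submodule.subset_span ⟨n, rfl⟩)
    have h2 := hg _ (kernel_differentiableOn (hz n)) (kernel_memLp (hz n))
    have h3 : ∫ w, g w * conj ((1 - z n * w) ^ 2)⁻¹ ∂μD = π * g (conj (z n)) := by
      rw [← reproducing hgd (hgm.integrable one_le_two)
        (show ‖conj (z n)‖ < 1 by rw [Complex.norm_conj]; exact hz n)]
      simp
    have h4 : Φ (kk n) = Φ.comp (ContinuousLinearMap.inl ℂ _ _) ((kernel_memLp (hz n)).toLp _) +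
        Φ2 (R ⟨_, hkB n⟩) := by
      simp only [Φ2, ContinuousLinearMap.comp_apply, ContinuousLinearMap.inl_apply,
        ContinuousLinearMap.inr_apply, ← map_add, Prod.mk_add_mk, add_zero, zero_add, kk]
    rw [h4, h2, h3, ← hΛ'] at h1
    have h5 : (fun w => conj ((fun x => ((1 - conj (z n) * x) ^ 2)⁻¹) (conj w))) =
        fun w => ((1 - z n * w) ^ 2)⁻¹ := by
      ext w
      simp
    show _ + (π : ℂ)⁻¹ * conj (Λ fun w => conj ((fun x => ((1 - conj (z n) * x) ^ 2)⁻¹) (conj w))) = 0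
    rw [h5]
    have h6 := congrArg conj h1
    rw [map_add, Complex.conj_conj, map_zero] at h6
    generalize conj (Λ fun w => ((1 - z n * w) ^ 2)⁻¹) = t at h6 ⊢
    field_simp
    linear_combination h6

end Pool.Agent.Lib.MP_435399_an.ZO
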