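import Mathlib
import Pool.Agent.Lib.MP_435399_an.LocMain

set_option autoImplicit false

open MeasureTheory Set Metric Real Complex Filter Topology ComplexConjugate

namespace Pool.Agent.Lib.MP_435399_an.ZO

open Pool.Agent.Lib.MP_435399_an

/-- The conjugated kernel combination. -/
noncomputable def pj (z : ℕ → ℂ) (s : Finset ℕ) (a : ℕ → ℂ) (x : ℂ) : ℂ :=
  ∑ n ∈ s, conj (a n) * ((1 - conj (z n) * x) ^ 2)⁻¹

/-- Its primitive vanishing at the origin. -/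
noncomputable def qj (z : ℕ → ℂ) (s : Finset ℕ) (a : ℕ → ℂ) (x : ℂ) : ℂ :=
  ∑ n ∈ s, conj (a n) * (x * (1 - conj (z n) * x)⁻¹)

/-- The standing data of the zero-one law, in the conjugated outer variable. -/
structure Data (z : ℕ → ℂ) (x0 : ℂ) (ρ R N : ℝ) (L : (ℂ → ℂ) →ₗ[ℂ] ℂ) (g f : ℂ → ℂ)
    (S : ℕ → Finset ℕ) (c : ℕ → ℕ → ℂ) : Prop where
  hz : ∀ n, ‖z n‖ < 1
  hρ : 0 < ρ
  hR : 1 < R
  hK : ∀ x ∈ closedBall x0 ρ, R ≤ ‖x‖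
  hpole : ∀ n, ∀ x ∈ closedBall x0 ρ, 1 - conj (z n) * x ≠ 0
  hN : 0 ≤ N
  hL : ∀ (ψ : ℂ → ℂ) (C : ℝ), 0 ≤ C → (∀ x ∈ sphere x0 ρ, ‖ψ x‖ ≤ C) → ‖L ψ‖ ≤ N * C
  hgd : DifferentiableOn ℂ g (ball 0 1)
  hgm : MemLp g 2 μD
  hz0 : ∀ n, g (conj (z n)) + L (fun x => ((1 - conj (z n) * x) ^ 2)⁻¹) = 0
  hfd : DifferentiableOn ℂ f (ball 0 1)
  hfm : MemLp f 2 μD
  hconv : Tendsto (fun j => ∫ w, ‖comb z (S j) (c j) w - f w‖ ^ 2 ∂μD) atTop (𝓝 0)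
  hunif : ∀ e : ℝ, 0 < e → ∀ᶠ j in atTop, ∀ x ∈ closedBall x0 ρ, ‖pj z (S j) (c j) x‖ ≤ e

lemma hasDerivAt_qj (z : ℕ → ℂ) (s : Finset ℕ) (a : ℕ → ℂ) {x : ℂ}
    (h : ∀ n, 1 - conj (z n) * x ≠ 0) : HasDerivAt (qj z s a) (pj z s a x) x := by
  unfold qj pj
  refine HasDerivAt.fun_sum fun n _ => HasDerivAt.const_mul _ ?_
  have h1 : HasDerivAt (fun x : ℂ => 1 - conj (z n) * x) (-(conj (z n) * 1)) x :=
    ((hasDerivAt_id x).const_mul _).const_sub _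
  have h2 := (hasDerivAt_id' x).fun_mul (h1.fun_inv (h n))
  refine h2.congr_deriv ?_
  have := h n
  field_simp
  ring

/-- The primitives are almost constant on the closed disc. -/
lemma Data.prim_small {z : ℕ → ℂ} {x0 : ℂ} {ρ R N : ℝ} {L : (ℂ → ℂ) →ₗ[ℂ] ℂ} {g f : ℂ → ℂ}
    {S : ℕ → Finset ℕ} {c : ℕ → ℕ → ℂ} (D : Data z x0 ρ R N L g f S c) (e : ℝ) (he : 0 < e) :
    ∀ᶠ j in atTop, ∀ x ∈ closedBall x0 ρ, ‖qj z (S j) (c j) x - qj z (S j) (c j) x0‖ ≤ e := by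
  have hρ := D.hρ
  filter_upwards [D.hunif (e / ρ) (by positivity)] with j hj x hx
  have := (convex_closedBall x0 ρ).norm_image_sub_le_of_norm_hasDerivWithin_le
    (f := qj z (S j) (c j)) (f' := pj z (S j) (c j)) (C := e / ρ)
    (fun u hu => (hasDerivAt_qj z _ _ fun n => D.hpole n u hu).hasDerivWithinAt) hj
    (mem_closedBall_self hρ.le) hx
  refine this.trans ?_
  rw [div_mul_eq_mul_div, div_le_iff₀ hρ]
  exact mul_le_mul_of_nonneg_left (by simpa [dist_eq_norm] using hx) he.le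

end Pool.Agent.Lib.MP_435399_an.ZO
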