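import Mathlib
import Pool.Agent.Lib.MP_435399_an.ZO.Defs

set_option autoImplicit false

open MeasureTheory Set Metric Real Complex Filter Topology ComplexConjugate

namespace Pool.Agent.Lib.MP_435399_an.ZO

open Pool.Agent.Lib.MP_435399_an

/-- The outer functional tends to zero on the divided kernels. -/
lemma Data.in_small {z : ℕ → ℂ} {x0 : ℂ} {ρ R N : ℝ} {L : (ℂ → ℂ) →ₗ[ℂ] ℂ} {g f : ℂ → ℂ}
    {S : ℕ → Finset ℕ} {c : ℕ → ℕ → ℂ} (D : Data z x0 ρ R N L g f S c) {x1 : ℂ}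
    (h1 : x1 ∈ ball x0 ρ) :
    Tendsto (fun j => ∑ n ∈ S j, conj (c j n) * (x1 * (1 - conj (z n) * x1)⁻¹) *
      L (fun x => ((1 - conj (z n) * x) ^ 2)⁻¹)) atTop (𝓝 0) := by
  have hρ := D.hρ
  have hN := D.hN
  have h1c : x1 ∈ closedBall x0 ρ := ball_subset_closedBall h1
  have hx1 : 0 < ‖x1‖ := by linarith [D.hK x1 h1c, D.hR]
  have hx0 : x1 ≠ 0 := norm_pos_iff.mp hx1
  obtain ⟨d, hd⟩ : ∃ d, d = ρ - ‖x1 - x0‖ := ⟨_, rfl⟩
  have hd0 : 0 < d := by
    have := mem_ball_iff_norm.mp h1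
    linarith
  obtain ⟨T, hT⟩ : ∃ T, T = ‖x0‖ + ρ := ⟨_, rfl⟩
  have hT0 : 0 < T := by rw [hT]; positivity
  obtain ⟨B, hB⟩ : ∃ B, B = T * (‖x1‖ / d) + (‖x1‖ / d) ^ 2 * 2 := ⟨_, rfl⟩
  have hB0 : 0 < B := by rw [hB]; positivity
  rw [NormedAddGroup.tendsto_nhds_zero]
  intro ε hε
  have he : 0 < ε / ((N + 1) * B) := by positivity
  obtain ⟨e, hed⟩ : ∃ e, e = ε / ((N + 1) * B) := ⟨_, rfl⟩
  rw [← hed] at he
  filter_upwards [D.hunif e he, D.prim_small e he] with j hp hq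
  have eL : ∑ n ∈ S j, conj (c j n) * (x1 * (1 - conj (z n) * x1)⁻¹) *
      L (fun x => ((1 - conj (z n) * x) ^ 2)⁻¹) =
      L (∑ n ∈ S j, (conj (c j n) * (x1 * (1 - conj (z n) * x1)⁻¹)) •
        fun x => ((1 - conj (z n) * x) ^ 2)⁻¹) := by
    rw [map_sum]
    exact Finset.sum_congr rfl fun n _ => by rw [map_smul, smul_eq_mul]
  rw [eL]
  refine (D.hL _ (B * e) (by positivity) fun x hx => ?_).trans_lt ?_
  · have hxc : x ∈ closedBall x0 ρ := sphere_subset_closedBall hx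
    have hxs : ‖x - x0‖ = ρ := mem_sphere_iff_norm.mp hx
    have hdx : d ≤ ‖x1 - x‖ := by
      have := norm_sub_norm_le (x - x0) (x1 - x0)
      rw [show x - x0 - (x1 - x0) = -(x1 - x) by ring, norm_neg] at this
      linarith
    have hne : x1 - x ≠ 0 := norm_pos_iff.mp (by linarith)
    have hxT : ‖x‖ ≤ T := by
      have := norm_add_le x0 (x - x0)
      rw [add_sub_cancel] at this
      linarith
    have e1 : (∑ n ∈ S j, (conj (c j n) * (x1 * (1 - conj (z n) * x1)⁻¹)) •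
        fun x => ((1 - conj (z n) * x) ^ 2)⁻¹) x =
        -(x * (x1 / (x1 - x)) * pj z (S j) (c j) x + (x1 / (x1 - x)) ^ 2 *
          ((qj z (S j) (c j) x - qj z (S j) (c j) x0) -
            (qj z (S j) (c j) x1 - qj z (S j) (c j) x0))) := by
      rw [sub_sub_sub_cancel_right, Finset.sum_apply]
      simp only [pj, qj, Finset.mul_sum, ← Finset.sum_sub_distrib, ← Finset.sum_add_distrib,
        ← Finset.sum_neg_distrib, Pi.smul_apply, smul_eq_mul]
      refine Finset.sum_congr rfl fun n _ => ?_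
      have a1 := D.hpole n x hxc
      have a2 := D.hpole n x1 h1c
      generalize conj (z n) = a at a1 a2
      have a3 : 1 - x * a ≠ 0 := by rwa [mul_comm]
      have a4 : 1 - x1 * a ≠ 0 := by rwa [mul_comm]
      field_simp
      ring
    have e2 : ‖x1 / (x1 - x)‖ ≤ ‖x1‖ / d := by
      rw [norm_div]
      gcongr
    rw [e1, norm_neg]
    refine (norm_add_le _ _).trans ?_
    rw [norm_mul, norm_mul, norm_mul, norm_pow]
    have e3 := (norm_sub_le _ _).trans (add_le_add (hq x hxc) (hq x1 h1c))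
    have e4 := hp x hxc
    calc _ ≤ T * (‖x1‖ / d) * e + (‖x1‖ / d) ^ 2 * (e + e) := by gcongr
      _ = B * e := by rw [hB]; ring
  · have : (N + 1) * (B * e) = ε := by rw [hed]; field_simp
    nlinarith [mul_pos hB0 he]

theorem in_ident {z : ℕ → ℂ} {x0 : ℂ} {ρ R N : ℝ} {L : (ℂ → ℂ) →ₗ[ℂ] ℂ} {g f : ℂ → ℂ}
    {S : ℕ → Finset ℕ} {c : ℕ → ℕ → ℂ} (D : Data z x0 ρ R N L g f S c)
    (hg : ∃ w ∈ ball (0 : ℂ) 1, g w ≠ 0) :
    ∃ κ : ℂ, Tendsto (fun j => qj z (S j) (c j) x0) atTop (𝓝 κ) ∧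
      ∀ l : ℂ, ‖l‖ < 1 → ∫ w, dslope g l w * conj (f w) ∂μD = π * g l * κ := by
  have hz := D.hz
  have hgd := D.hgd
  have hgm := D.hgm
  have hfm := D.hfm
  have hcm : ∀ j, MemLp (comb z (S j) (c j)) 2 μD := fun j => comb_memLp hz _ _
  have hz' : ∀ n, conj (z n) ∈ ball (0 : ℂ) 1 := fun n => by
    rw [mem_ball_zero_iff, Complex.norm_conj]; exact hz n
  have hpre : IsPreconnected (ball (0 : ℂ) 1) := (convex_ball _ _).isPreconnected
  have hlimu : ∀ u : ℂ → ℝ, MemLp u 2 μD →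
      Tendsto (fun j => ∫ w, u w * ‖comb z (S j) (c j) w - f w‖ ∂μD) atTop (𝓝 0) :=
    fun u hu => tendsto_integral_mul hu (fun j => (hcm j).sub hfm) D.hconv
  have hdsd : ∀ l ∈ ball (0 : ℂ) 1, DifferentiableOn ℂ (dslope g l) (ball 0 1) :=
    fun l hl => (Complex.differentiableOn_dslope (isOpen_ball.mem_nhds hl)).mpr hgd
  have hum : ∀ M η : ℝ, MemLp (fun w => (‖g w‖ + M) / η) 2 μD := by
    intro M η
    simp only [div_eq_mul_inv]
    exact (hgm.norm.add (memLp_const M)).mul_const _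
  have hdsm : ∀ l ∈ ball (0 : ℂ) 1, MemLp (dslope g l) 2 μD := by
    intro l hl
    have hl' := mem_ball_zero_iff.mp hl
    obtain ⟨M, hM⟩ := dslope_bound hgd (ρ := (1 + ‖l‖) / 2) (by positivity) (by linarith)
    exact memLp_of_le (hdsd l hl).continuousOn (hum _ _) (hM l (by linarith))
  set H : ℂ → ℂ := fun l => ∫ w, dslope g l w * conj (f w) ∂μD with hH
  set Hj : ℕ → ℂ → ℂ := fun j l => π * ∑ n ∈ S j, conj (c j n) * dslope g (conj (z n)) l with hHj
  have hHjd : ∀ j, DifferentiableOn ℂ (Hj j) (ball 0 1) := fun j =>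
    (DifferentiableOn.fun_sum fun n _ => (hdsd _ (hz' n)).const_mul _).const_mul _
  have hloc : TendstoLocallyUniformlyOn Hj H atTop (ball 0 1) := by
    refine tendstoLocallyUniformlyOn_of_approx fun ρ h0 h1 => ?_
    obtain ⟨M, hM⟩ := dslope_bound hgd h0 h1
    refine ⟨_, hlimu _ (hum M ((1 - ρ) / 2)), fun j l hl => ?_⟩
    have hl' : l ∈ ball (0 : ℂ) 1 := mem_ball_zero_iff.mpr (hl.trans_lt h1)
    have := norm_pairing_sub_le (hdsm l hl') hfm (hcm j) (hum M ((1 - ρ) / 2)) (hM l hl)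
    rw [pairing_comb hz (hdsd l hl') (hdsm l hl')] at this
    simp only [hHj, hH, dslope_symm g (conj (z _)) l]
    exact this
  have hHd : DifferentiableOn ℂ H (ball 0 1) :=
    hloc.differentiableOn (Eventually.of_forall hHjd) isOpen_ball
  have hin : ∀ x1 ∈ ball x0 ρ, x1 ≠ 0 ∧ x1⁻¹ ∈ ball (0 : ℂ) 1 := fun x1 h1 => by
    have h2 : 1 < ‖x1‖ := D.hR.trans_le (D.hK x1 (ball_subset_closedBall h1))
    refine ⟨norm_pos_iff.mp (by linarith), ?_⟩
    rw [mem_ball_zero_iff, norm_inv]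
    exact inv_lt_one_of_one_lt₀ h2
  have hq : ∀ x1 ∈ ball x0 ρ,
      Tendsto (fun j => qj z (S j) (c j) x1 - qj z (S j) (c j) x0) atTop (𝓝 0) := fun x1 h1 => by
    rw [NormedAddGroup.tendsto_nhds_zero]
    intro ε hε
    filter_upwards [D.prim_small (ε / 2) (by positivity)] with j hj
    exact (hj x1 (ball_subset_closedBall h1)).trans_lt (by linarith)
  have key : ∀ x1 ∈ ball x0 ρ,
      Tendsto (fun j => π * g x1⁻¹ * qj z (S j) (c j) x0) atTop (𝓝 (H x1⁻¹)) := fun x1 h1 => by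
    obtain ⟨h0, hl⟩ := hin x1 h1
    have t1 := ((hloc.tendsto_at hl).sub ((D.in_small h1).const_mul (π : ℂ))).sub
      ((hq x1 h1).const_mul (π * g x1⁻¹))
    rw [mul_zero, mul_zero, sub_zero, sub_zero] at t1
    refine t1.congr fun j => ?_
    have e : ∑ n ∈ S j, conj (c j n) * dslope g (conj (z n)) x1⁻¹ =
        ∑ n ∈ S j, conj (c j n) * (x1 * (1 - conj (z n) * x1)⁻¹) *
          L (fun x => ((1 - conj (z n) * x) ^ 2)⁻¹) + g x1⁻¹ * qj z (S j) (c j) x1 := by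
      rw [qj, Finset.mul_sum, ← Finset.sum_add_distrib]
      refine Finset.sum_congr rfl fun n _ => ?_
      have a1 := D.hpole n x1 (ball_subset_closedBall h1)
      have a2 : x1⁻¹ - conj (z n) = (1 - conj (z n) * x1) * x1⁻¹ := by field_simp
      have a3 : x1⁻¹ ≠ conj (z n) :=
        sub_ne_zero.mp (a2 ▸ mul_ne_zero a1 (inv_ne_zero h0))
      rw [dslope_of_ne _ a3, slope_def_field, eq_neg_of_add_eq_zero_left (D.hz0 n), a2]
      generalize 1 - conj (z n) * x1 = y at a1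
      field_simp
      ring
    simp only [hHj]
    rw [e]
    ring
  obtain ⟨h00, hl0⟩ := hin x0 (mem_ball_self D.hρ)
  have hU : ∀ᶠ l in 𝓝 x0⁻¹, l⁻¹ ∈ ball x0 ρ := by
    refine (continuousAt_inv₀ (inv_ne_zero h00)).eventually_mem ?_
    rw [inv_inv]
    exact ball_mem_nhds _ D.hρ
  have hga := hgd.analyticOnNhd isOpen_ball
  obtain ⟨x1, h1, hg1⟩ : ∃ x1 ∈ ball x0 ρ, g x1⁻¹ ≠ 0 := by
    by_contra hc
    push Not at hc
    obtain ⟨w, hw, hgw⟩ := hg
    refine hgw (hga.eqOn_zero_of_preconnected_of_eventuallyEq_zero hpre hl0 ?_ hw)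
    filter_upwards [hU] with l hl
    simpa using hc _ hl
  have hπ : (π : ℂ) ≠ 0 := by exact_mod_cast pi_ne_zero
  have hκ : Tendsto (fun j => qj z (S j) (c j) x0) atTop (𝓝 ((π * g x1⁻¹)⁻¹ * H x1⁻¹)) := by
    refine ((key x1 h1).const_mul (π * g x1⁻¹)⁻¹).congr fun j => ?_
    rw [inv_mul_cancel_left₀ (mul_ne_zero hπ hg1)]
  refine ⟨_, hκ, fun l hl => ?_⟩
  generalize (π * g x1⁻¹)⁻¹ * H x1⁻¹ = κ at hκ ⊢
  have hR : DifferentiableOn ℂ (fun l => π * g l * κ) (ball 0 1) := (hgd.const_mul _).mul_const _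
  refine (hHd.analyticOnNhd isOpen_ball).eqOn_of_preconnected_of_eventuallyEq
    (hR.analyticOnNhd isOpen_ball) hpre hl0 ?_ (mem_ball_zero_iff.mpr hl)
  filter_upwards [hU] with u hu
  have := tendsto_nhds_unique (key _ hu) (hκ.const_mul _)
  rwa [inv_inv] at this

end Pool.Agent.Lib.MP_435399_an.ZO
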