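import Mathlib
import Pool.Agent.Lib.MP_435399_an.ZO.Defs

set_option autoImplicit false

open MeasureTheory Set Metric Real Complex Filter Topology ComplexConjugate

namespace Pool.Agent.Lib.MP_435399_an.ZO

lemma norm_one_sub_ge {R : ℝ} {a x : ℂ} (hx : R ≤ ‖x‖) : ‖a‖ * R - 1 ≤ ‖1 - a * x‖ := by
  have h1 := norm_sub_norm_le (a * x) 1
  rw [norm_sub_rev, norm_mul, norm_one] at h1
  have := mul_le_mul_of_nonneg_left hx (norm_nonneg a)
  linarith

/-- The outer transform is holomorphic beyond the reflected disc. -/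
lemma differentiableAt_M {Γ : Set ℂ} {R B N : ℝ} {L : (ℂ → ℂ) →ₗ[ℂ] ℂ} (hR : 0 < R)
    (hΓ : ∀ x ∈ Γ, R ≤ ‖x‖ ∧ ‖x‖ ≤ B)
    (hL : ∀ (ψ : ℂ → ℂ) (C : ℝ), 0 ≤ C → (∀ x ∈ Γ, ‖ψ x‖ ≤ C) → ‖L ψ‖ ≤ N * C)
    {l : ℂ} (hl : 1 < ‖l‖ * R) :
    DifferentiableAt ℂ (fun a : ℂ => L (fun x => ((1 - a * x) ^ 2)⁻¹)) l := by
  set m := (‖l‖ * R - 1) / 2 with hm
  have hm0 : 0 < m := by linarith
  set C := B ^ 2 * (1 / m ^ 4 + 2 / m ^ 4) with hC
  have hC0 : 0 ≤ C := by positivity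
  refine HasDerivAt.differentiableAt (f' := L (fun x => 2 * x / (1 - l * x) ^ 3)) ?_
  rw [hasDerivAt_iff_isLittleO]
  have hev : ∀ᶠ a in 𝓝 l, m < ‖a‖ * R - 1 :=
    (by fun_prop : Continuous fun a : ℂ => ‖a‖ * R - 1).continuousAt.eventually_const_lt
      (by linarith)
  refine Asymptotics.IsBigO.trans_isLittleO (g := fun a => ‖a - l‖ ^ 2) ?_
    (Asymptotics.isLittleO_pow_sub_sub l one_lt_two)
  refine Asymptotics.IsBigO.of_bound (N * C) ?_
  filter_upwards [hev] with a ha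
  have e : L (fun x => ((1 - a * x) ^ 2)⁻¹) - L (fun x => ((1 - l * x) ^ 2)⁻¹)
      - (a - l) • L (fun x => 2 * x / (1 - l * x) ^ 3)
      = L (fun x => ((1 - a * x) ^ 2)⁻¹ - ((1 - l * x) ^ 2)⁻¹
        - (a - l) * (2 * x / (1 - l * x) ^ 3)) := by
    rw [← map_smul, ← map_sub, ← map_sub]
    rfl
  rw [e, Real.norm_of_nonneg (by positivity), mul_assoc]
  refine hL _ _ (by positivity) fun x hx => ?_
  have h1 : m ≤ ‖1 - a * x‖ := ha.le.trans (norm_one_sub_ge (hΓ x hx).1)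
  have h2 : m ≤ ‖1 - l * x‖ := le_trans (by linarith) (norm_one_sub_ge (a := l) (hΓ x hx).1)
  have n1 : 1 - a * x ≠ 0 := norm_pos_iff.mp (hm0.trans_le h1)
  have n2 : 1 - l * x ≠ 0 := norm_pos_iff.mp (hm0.trans_le h2)
  have e2 : ((1 - a * x) ^ 2)⁻¹ - ((1 - l * x) ^ 2)⁻¹ - (a - l) * (2 * x / (1 - l * x) ^ 3)
      = x ^ 2 * (1 / ((1 - a * x) ^ 2 * (1 - l * x) ^ 2) + 2 / ((1 - a * x) * (1 - l * x) ^ 3))
        * (a - l) ^ 2 := by
    have k : ∀ A B : ℂ, A ≠ 0 → B ≠ 0 → (A ^ 2)⁻¹ - (B ^ 2)⁻¹ - 2 * (B - A) / B ^ 3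
        = (B - A) ^ 2 * (1 / (A ^ 2 * B ^ 2) + 2 / (A * B ^ 3)) := by
      intro A B hA hB
      field_simp
      ring
    have k1 := k _ _ n1 n2
    have k2 : 1 - l * x - (1 - a * x) = (a - l) * x := by ring
    rw [k2] at k1
    linear_combination k1
  rw [e2, norm_mul, norm_mul, norm_pow, norm_pow]
  refine mul_le_mul_of_nonneg_right ?_ (by positivity)
  refine mul_le_mul (pow_le_pow_left₀ (norm_nonneg _) (hΓ x hx).2 2)
    ((norm_add_le _ _).trans (add_le_add ?_ ?_)) (norm_nonneg _) (by positivity)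
  · rw [norm_div, norm_one, norm_mul, norm_pow, norm_pow]
    refine div_le_div_of_nonneg_left zero_le_one (by positivity) ?_
    calc m ^ 4 = m ^ 2 * m ^ 2 := by ring
      _ ≤ _ := by gcongr
  · rw [norm_div, norm_mul, norm_pow, Complex.norm_ofNat]
    refine div_le_div_of_nonneg_left zero_le_two (by positivity) ?_
    calc m ^ 4 = m * m ^ 3 := by ring
      _ ≤ _ := by gcongr

/-- The outer transform tends to zero at infinity. -/
lemma tendsto_M {Γ : Set ℂ} {R N : ℝ} {L : (ℂ → ℂ) →ₗ[ℂ] ℂ} (hR : 1 ≤ R)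
    (hΓ : ∀ x ∈ Γ, R ≤ ‖x‖)
    (hL : ∀ (ψ : ℂ → ℂ) (C : ℝ), 0 ≤ C → (∀ x ∈ Γ, ‖ψ x‖ ≤ C) → ‖L ψ‖ ≤ N * C) :
    Tendsto (fun a : ℂ => L (fun x => ((1 - a * x) ^ 2)⁻¹)) (cocompact ℂ) (𝓝 0) := by
  have h1 : Tendsto (fun a : ℂ => ‖a‖ - 1) (cocompact ℂ) atTop :=
    tendsto_atTop_add_const_right _ (-1) (tendsto_norm_cocompact_atTop (E := ℂ))
  have h2 : Tendsto (fun a : ℂ => N * (‖a‖ - 1)⁻¹) (cocompact ℂ) (𝓝 0) := by
    simpa using (tendsto_inv_atTop_zero.comp h1).const_mul N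
  rw [tendsto_zero_iff_norm_tendsto_zero]
  refine squeeze_zero' (Eventually.of_forall fun _ => norm_nonneg _) ?_ h2
  filter_upwards [h1.eventually_ge_atTop 1] with a ha
  refine hL _ _ (by positivity) fun x hx => ?_
  have h3 : ‖a‖ - 1 ≤ ‖1 - a * x‖ := by
    have := norm_one_sub_ge (a := a) (hΓ x hx)
    nlinarith [norm_nonneg a]
  rw [norm_inv, norm_pow]
  refine inv_anti₀ (by linarith) ?_
  nlinarith

/-- Gluing across the circle and Liouville. -/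
lemma glue_zero {g M : ℂ → ℂ} (hg : DifferentiableOn ℂ g (ball 0 1))
    (hM : ∀ l : ℂ, 1 ≤ ‖l‖ → ∀ᶠ a in 𝓝 l, DifferentiableAt ℂ M a)
    (hM0 : Tendsto M (cocompact ℂ) (𝓝 0))
    (h : ∀ ζ : ℂ, ‖ζ‖ = 1 → ∃ r > 0, ∀ l ∈ ball ζ r, ‖l‖ < 1 → g l + M l = 0) :
    ∀ w ∈ ball (0 : ℂ) 1, g w = 0 := by
  classical
  set E : ℂ → ℂ := fun l => if ‖l‖ < 1 then g l else -M l with hE
  have hd : Differentiable ℂ E := by
    intro p
    rcases lt_trichotomy ‖p‖ 1 with hp | hp | hp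
    · have hn : ball (0 : ℂ) 1 ∈ 𝓝 p := isOpen_ball.mem_nhds (mem_ball_zero_iff.mpr hp)
      refine (hg.differentiableAt hn).congr_of_eventuallyEq ?_
      filter_upwards [hn] with u hu
      simp only [hE, if_pos (mem_ball_zero_iff.mp hu)]
    · obtain ⟨r, hr, hr'⟩ := h p hp
      refine (hM p hp.ge).self_of_nhds.neg.congr_of_eventuallyEq ?_
      filter_upwards [ball_mem_nhds p hr] with u hu
      by_cases h1 : ‖u‖ < 1
      · simp only [hE, if_pos h1, Pi.neg_apply]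
        exact eq_neg_of_add_eq_zero_left (hr' u hu h1)
      · simp only [hE, if_neg h1, Pi.neg_apply]
    · refine (hM p hp.le).self_of_nhds.neg.congr_of_eventuallyEq ?_
      filter_upwards [(isOpen_lt continuous_const continuous_norm).mem_nhds hp] with u hu
      have h1 : ¬ ‖u‖ < 1 := not_lt.mpr (le_of_lt hu)
      simp only [hE, if_neg h1, Pi.neg_apply]
  have ht : Tendsto E (cocompact ℂ) (𝓝 0) := by
    have h1 := hM0.neg
    rw [neg_zero] at h1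
    refine h1.congr' ?_
    filter_upwards [(tendsto_norm_cocompact_atTop (E := ℂ)).eventually_ge_atTop 1] with u hu
    simp only [hE, if_neg (not_lt.mpr hu)]
  intro w hw
  have := hd.apply_eq_of_tendsto_cocompact w ht
  simpa only [hE, if_pos (mem_ball_zero_iff.mp hw)] using this

end Pool.Agent.Lib.MP_435399_an.ZO
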