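import Mathlib
import Pool.Agent.Lib.MP_435399_an.ZO.Defs

set_option autoImplicit false

open MeasureTheory Set Metric Real Complex Filter Topology ComplexConjugate

namespace Pool.Agent.Lib.MP_435399_an.ZO

open Pool.Agent.Lib.MP_435399_an

/-- The primitives converge inside the unit disc. -/
lemma out_prim {z : ℕ → ℂ} (hz : ∀ n, ‖z n‖ < 1) {f F : ℂ → ℂ} {S : ℕ → Finset ℕ}
    {c : ℕ → ℕ → ℂ} (hfd : DifferentiableOn ℂ f (ball 0 1)) (hfm : MemLp f 2 μD)
    (hconv : Tendsto (fun j => ∫ w, ‖comb z (S j) (c j) w - f w‖ ^ 2 ∂μD) atTop (𝓝 0))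
    (hF : ∀ u ∈ ball (0 : ℂ) 1, HasDerivAt F (f u) u) (hF0 : F 0 = 0) {b : ℂ} (hb : ‖b‖ < 1) :
    Tendsto (fun j => qj z (S j) (c j) (conj b)) atTop (𝓝 (conj (F b))) := by
  have hcm : ∀ j, MemLp (comb z (S j) (c j)) 2 μD := fun j => comb_memLp hz _ _
  have h1 : Tendsto (fun j => ∫ w, (1 : ℝ) * ‖comb z (S j) (c j) w - f w‖ ∂μD) atTop (𝓝 0) :=
    tendsto_integral_mul (u := fun _ => 1) (memLp_const 1) (fun j => (hcm j).sub hfm) hconv
  simp only [one_mul] at h1
  have hpos : 0 < 1 - ‖b‖ := by linarith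
  set Q : ℕ → ℂ → ℂ := fun j => qj (fun n => conj (z n)) (S j) (fun n => conj (c j n)) with hQ
  have hQd : ∀ j, ∀ u ∈ ball (0 : ℂ) 1, HasDerivAt (Q j) (comb z (S j) (c j) u) u := by
    intro j u hu
    have := hasDerivAt_qj (fun n => conj (z n)) (S j) (fun n => conj (c j n)) (x := u) fun n => by
      rw [conj_conj]; exact one_sub_mul_ne (hz n) (mem_ball_zero_iff.mp hu).le
    simpa only [pj, comb, conj_conj] using this
  have hbd : ∀ j, ‖Q j b - F b‖
      ≤ ((1 - ‖b‖) ^ 2)⁻¹ * (∫ w, ‖comb z (S j) (c j) w - f w‖ ∂μD) * ‖b‖ := by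
    intro j
    have hsub : closedBall (0 : ℂ) ‖b‖ ⊆ ball 0 1 := closedBall_subset_ball hb
    have := (convex_closedBall (0 : ℂ) ‖b‖).norm_image_sub_le_of_norm_hasDerivWithin_le
      (f := fun u => Q j u - F u) (f' := fun u => comb z (S j) (c j) u - f u)
      (C := ((1 - ‖b‖) ^ 2)⁻¹ * ∫ w, ‖comb z (S j) (c j) w - f w‖ ∂μD)
      (fun u hu => ((hQd j u (hsub hu)).sub (hF u (hsub hu))).hasDerivWithinAt)
      (fun u hu => by
        have hu' : ‖u‖ ≤ ‖b‖ := mem_closedBall_zero_iff.mp hu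
        have hg := growth (g := fun w => comb z (S j) (c j) w - f w)
          ((comb_differentiableOn hz _ _).sub hfd)
          (((hcm j).sub hfm).integrable one_le_two) (hu'.trans_lt hb)
        rw [le_inv_mul_iff₀ (by positivity)]
        refine le_trans (mul_le_mul_of_nonneg_right ?_ (norm_nonneg _)) hg
        exact pow_le_pow_left₀ hpos.le (by linarith) 2)
      (mem_closedBall_self (norm_nonneg b)) (mem_closedBall_zero_iff.mpr le_rfl)
    have e0 : Q j 0 = 0 := by simp [hQ, qj]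
    simpa only [e0, hF0, sub_zero] using this
  have h2 : Tendsto (fun j => Q j b) atTop (𝓝 (F b)) := by
    rw [tendsto_iff_norm_sub_tendsto_zero]
    refine squeeze_zero (fun _ => norm_nonneg _) hbd ?_
    simpa using (h1.const_mul ((1 - ‖b‖) ^ 2)⁻¹).mul_const ‖b‖
  refine ((Complex.continuous_conj.tendsto _).comp h2).congr fun j => ?_
  simp [hQ, qj, map_sum]

theorem out_ident {z : ℕ → ℂ} {x0 : ℂ} {ρ R N : ℝ} {L : (ℂ → ℂ) →ₗ[ℂ] ℂ} {g f : ℂ → ℂ}
    {S : ℕ → Finset ℕ} {c : ℕ → ℕ → ℂ} (D : Data z x0 ρ R N L g f S c) {κ : ℂ}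
    (hκ : Tendsto (fun j => qj z (S j) (c j) x0) atTop (𝓝 κ)) {F : ℂ → ℂ}
    (hF : ∀ u ∈ ball (0 : ℂ) 1, HasDerivAt F (f u) u) (hF0 : F 0 = 0) {l : ℂ} (hl : 1 < ‖l‖) :
    ∫ w, g w * conj (f w) / (w - l) ∂μD
      = -π * L (fun x => ((1 - l * x) ^ 2)⁻¹) * (κ - conj (F (conj l)⁻¹)) := by
  have hz := D.hz
  have hR := D.hR
  have hN := D.hN
  have hρ := D.hρ
  have hl0 : l ≠ 0 := by
    intro h0; rw [h0, norm_zero] at hl; linarith
  have hfar : ∀ w ∈ ball (0 : ℂ) 1, ‖l‖ - 1 ≤ ‖w - l‖ := by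
    intro w hw
    have := norm_sub_norm_le l w
    rw [norm_sub_rev] at this
    linarith [mem_ball_zero_iff.mp hw]
  have hne : ∀ w ∈ ball (0 : ℂ) 1, w - l ≠ 0 := by
    intro w hw h0
    have := hfar w hw
    rw [h0, norm_zero] at this
    linarith
  have hzb : ∀ n, conj (z n) ∈ ball (0 : ℂ) 1 := fun n => by
    rw [mem_ball_zero_iff, Complex.norm_conj]; exact hz n
  set φ : ℂ → ℂ := fun w => g w / (w - l) with hφ
  have hφd : DifferentiableOn ℂ φ (ball 0 1) := D.hgd.div (by fun_prop) hne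
  have hub : ∀ w ∈ ball (0 : ℂ) 1, ‖φ w‖ ≤ ‖g w‖ * (‖l‖ - 1)⁻¹ := by
    intro w hw
    rw [hφ]
    simp only [norm_div]
    rw [div_eq_mul_inv]
    exact mul_le_mul_of_nonneg_left (inv_anti₀ (by linarith) (hfar w hw)) (norm_nonneg _)
  have hum : MemLp (fun w => ‖g w‖ * (‖l‖ - 1)⁻¹) 2 μD := D.hgm.norm.mul_const _
  have hφm : MemLp φ 2 μD := memLp_of_le hφd.continuousOn hum hub
  have hcm : ∀ j, MemLp (comb z (S j) (c j)) 2 μD := fun j => comb_memLp hz _ _
  have t1 : Tendsto (fun j => ∫ w, φ w * conj (comb z (S j) (c j) w) ∂μD) atTop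
      (𝓝 (∫ w, φ w * conj (f w) ∂μD)) := by
    rw [tendsto_iff_norm_sub_tendsto_zero]
    exact squeeze_zero (fun _ => norm_nonneg _)
      (fun j => norm_pairing_sub_le hφm D.hfm (hcm j) hum hub)
      (tendsto_integral_mul hum (fun j => (hcm j).sub D.hfm) D.hconv)
  have hlx : ∀ x ∈ sphere x0 ρ, R - 1 ≤ ‖1 - l * x‖ := by
    intro x hx
    have h1 := D.hK x (sphere_subset_closedBall hx)
    have h2 := norm_sub_norm_le (l * x) 1
    rw [norm_sub_rev, norm_mul, norm_one] at h2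
    nlinarith [norm_nonneg x]
  have hR1 : 0 < R - 1 := by linarith
  have hlne : ∀ x ∈ sphere x0 ρ, 1 - l * x ≠ 0 := by
    intro x hx h0
    have := hlx x hx
    rw [h0, norm_zero] at this
    linarith
  set kl : ℂ → ℂ := fun x => ((1 - l * x) ^ 2)⁻¹ with hkl
  set E : ℕ → ℂ → ℂ := fun j x => x / (1 - l * x) * pj z (S j) (c j) x
    + kl x * (qj z (S j) (c j) x - qj z (S j) (c j) x0) with hE
  have hcongr : ∀ ψ χ : ℂ → ℂ, (∀ x ∈ sphere x0 ρ, ψ x = χ x) → L ψ = L χ := by
    intro ψ χ h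
    have := D.hL (ψ - χ) 0 le_rfl fun x hx => by simp [h x hx]
    rw [mul_zero, map_sub] at this
    exact sub_eq_zero.mp (norm_le_zero_iff.mp this)
  have e1 : ∀ j, ∫ w, φ w * conj (comb z (S j) (c j) w) ∂μD
      = -π * (L (E j) + L kl * (qj z (S j) (c j) x0 - qj z (S j) (c j) l⁻¹)) := by
    intro j
    rw [pairing_comb hz hφd hφm]
    have a1 : ∑ n ∈ S j, conj (c j n) * φ (conj (z n))
        = -L (∑ n ∈ S j, (conj (c j n) / (conj (z n) - l)) •
          fun x => ((1 - conj (z n) * x) ^ 2)⁻¹) := by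
      rw [map_sum, ← Finset.sum_neg_distrib]
      refine Finset.sum_congr rfl fun n _ => ?_
      rw [map_smul, smul_eq_mul, hφ]
      simp only
      rw [eq_neg_of_add_eq_zero_left (D.hz0 n)]
      ring
    have a2 : L (∑ n ∈ S j, (conj (c j n) / (conj (z n) - l)) •
          fun x => ((1 - conj (z n) * x) ^ 2)⁻¹)
        = L (E j + (qj z (S j) (c j) x0 - qj z (S j) (c j) l⁻¹) • kl) := by
      refine hcongr _ _ fun x hx => ?_
      have b1 : (E j + (qj z (S j) (c j) x0 - qj z (S j) (c j) l⁻¹) • kl) x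
          = x / (1 - l * x) * pj z (S j) (c j) x
            + kl x * (qj z (S j) (c j) x - qj z (S j) (c j) l⁻¹) := by
        simp only [hE, Pi.add_apply, Pi.smul_apply, smul_eq_mul]
        ring
      rw [b1, Finset.sum_apply]
      simp only [pj, qj, hkl, Pi.smul_apply, smul_eq_mul, Finset.mul_sum,
        ← Finset.sum_sub_distrib, ← Finset.sum_add_distrib]
      refine Finset.sum_congr rfl fun n _ => ?_
      have n1 := D.hpole n x (sphere_subset_closedBall hx)
      have n2 := hlne x hx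
      have n3 := hne _ (hzb n)
      have n4 : l⁻¹ * (1 - conj (z n) * l⁻¹)⁻¹ = -(conj (z n) - l)⁻¹ := by
        rw [← mul_inv, ← inv_neg]
        congr 1
        field_simp
        ring
      rw [n4]
      field_simp
      ring
    rw [a1, a2, map_add, map_smul, smul_eq_mul]
    ring
  have t2 : Tendsto (fun j => L (E j)) atTop (𝓝 0) := by
    set K : ℝ := (‖x0‖ + ρ) / (R - 1) + ((R - 1) ^ 2)⁻¹ with hK
    have hK0 : 0 ≤ K := by positivity
    rw [Metric.tendsto_nhds]
    intro ε hε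
    set e : ℝ := ε / (N * K + 1) with he
    have he0 : 0 < e := by positivity
    filter_upwards [D.hunif e he0, D.prim_small e he0] with j h1 h2
    rw [dist_zero_right]
    have := D.hL (E j) (K * e) (by positivity) fun x hx => by
      have hx' := sphere_subset_closedBall hx
      have b1 : ‖x‖ ≤ ‖x0‖ + ρ := by
        have := norm_add_le x0 (x - x0)
        rw [add_sub_cancel, mem_sphere_iff_norm.mp hx] at this
        exact this
      have b2 : ‖x / (1 - l * x)‖ ≤ (‖x0‖ + ρ) / (R - 1) := by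
        rw [norm_div]
        exact div_le_div₀ (by positivity) b1 hR1 (hlx x hx)
      have b3 : ‖kl x‖ ≤ ((R - 1) ^ 2)⁻¹ := by
        simp only [hkl, norm_inv, norm_pow]
        exact inv_anti₀ (by positivity) (pow_le_pow_left₀ hR1.le (hlx x hx) 2)
      refine (norm_add_le _ _).trans ?_
      rw [norm_mul, norm_mul, hK, add_mul]
      exact add_le_add (mul_le_mul b2 (h1 x hx') (norm_nonneg _) (by positivity))
        (mul_le_mul b3 (h2 x hx') (norm_nonneg _) (by positivity))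
    refine this.trans_lt ?_
    have b4 : (N * K + 1) * e = ε := by rw [he]; field_simp
    nlinarith
  have hb : ‖(conj l)⁻¹‖ < 1 := by
    rw [norm_inv, Complex.norm_conj]
    exact inv_lt_one_of_one_lt₀ hl
  have t3 := out_prim hz D.hfd D.hfm D.hconv hF hF0 hb
  rw [map_inv₀, conj_conj] at t3
  have t4 := (t2.add ((hκ.sub t3).const_mul (L kl))).const_mul (-(π : ℂ))
  simp_rw [e1] at t1
  have := tendsto_nhds_unique t1 t4
  rw [zero_add, ← mul_assoc] at this
  rw [← this]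
  refine integral_congr_ae (Eventually.of_forall fun w => ?_)
  simp only [hφ]
  ring

end Pool.Agent.Lib.MP_435399_an.ZO
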