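import Mathlib
import Pool.Agent.Lib.MP_435399_an.Jump
import Pool.Agent.Lib.MP_435399_an.ZO.HB
import Pool.Agent.Lib.MP_435399_an.ZO.In
import Pool.Agent.Lib.MP_435399_an.ZO.Out
import Pool.Agent.Lib.MP_435399_an.ZO.Mfun

set_option autoImplicit false

open MeasureTheory Set Metric Real Complex Filter Topology ComplexConjugate

namespace Pool.Agent.Lib.MP_435399_an.ZO

open Pool.Agent.Lib.MP_435399_an

theorem core {z : ℕ → ℂ} {x0 : ℂ} {ρ R N : ℝ} {L : (ℂ → ℂ) →ₗ[ℂ] ℂ} {g f : ℂ → ℂ}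
    {S : ℕ → Finset ℕ} {c : ℕ → ℕ → ℂ} (D : Data z x0 ρ R N L g f S c)
    (hg : ∃ w ∈ ball (0 : ℂ) 1, g w ≠ 0) : ∀ w ∈ ball (0 : ℂ) 1, f w = 0 := by
  by_contra hf
  obtain ⟨κ, hκ, hin⟩ := in_ident D hg
  obtain ⟨F, hF0, hF⟩ := D.hfd.isExactOn_ball.with_val_at 0 0
  have hR := D.hR
  have hR0 : 0 < R := by linarith
  have hΓ : ∀ x ∈ sphere x0 ρ, R ≤ ‖x‖ ∧ ‖x‖ ≤ ‖x0‖ + ρ := fun x hx =>
    ⟨D.hK x (sphere_subset_closedBall hx), norm_le_of_mem_closedBall (sphere_subset_closedBall hx)⟩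
  have hM : ∀ a : ℂ, 1 < ‖a‖ * R →
      DifferentiableAt ℂ (fun a : ℂ => L (fun x => ((1 - a * x) ^ 2)⁻¹)) a :=
    fun a ha => differentiableAt_M hR0 hΓ D.hL ha
  obtain ⟨w, hw, hgw⟩ := hg
  refine hgw (glue_zero (M := fun a : ℂ => L (fun x => ((1 - a * x) ^ 2)⁻¹)) D.hgd ?_
    (tendsto_M hR.le (fun x hx => (hΓ x hx).1) D.hL) ?_ w hw)
  · intro l hl
    have : ∀ᶠ a in 𝓝 l, 1 < ‖a‖ * R :=
      (by fun_prop : Continuous fun a : ℂ => ‖a‖ * R).continuousAt.eventually_const_lt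
        (by nlinarith)
    exact this.mono hM
  · intro ζ hζ
    have hr : 0 < 1 - R⁻¹ := sub_pos.mpr (inv_lt_one_of_one_lt₀ hR)
    refine (jump (M := fun a : ℂ => L (fun x => ((1 - a * x) ^ 2)⁻¹)) hr hζ D.hgd D.hgm D.hfd D.hfm
      hF hF0 (fun a ha => (hM a ?_).differentiableWithinAt) hin
      (fun l _ hl => out_ident D hκ hF hF0 hl)).resolve_left hf
    have h1 : ‖a - ζ‖ < 1 - R⁻¹ := by simpa [dist_eq_norm] using ha
    have h2 := norm_sub_norm_le ζ a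
    rw [norm_sub_rev, hζ] at h2
    have h3 : R⁻¹ < ‖a‖ := by linarith
    rwa [inv_lt_iff_one_lt_mul₀ hR0] at h3

/-- The zero-one law. -/
theorem zero_one {z : ℕ → ℂ} (hz : ∀ n, ‖z n‖ < 1) {c0 : ℂ} {ρ : ℝ} (hρ : 0 < ρ)
    (hΔ : ∀ w ∈ closedBall c0 ρ, 1 < ‖w‖) (hpole : ∀ n, ∀ w ∈ closedBall c0 ρ, z n * w ≠ 1)
    (S : ℕ → Finset ℕ) (c : ℕ → ℕ → ℂ) {f : ℂ → ℂ} (hfd : DifferentiableOn ℂ f (ball 0 1))
    (hfm : MemLp f 2 μD)
    (hconv : Tendsto (fun j => ∫ w, ‖comb z (S j) (c j) w - f w‖ ^ 2 ∂μD) atTop (𝓝 0))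
    (hunif : TendstoUniformlyOn (fun j => comb z (S j) (c j)) 0 atTop (closedBall c0 ρ))
    (hf : ∃ w ∈ ball (0 : ℂ) 1, f w ≠ 0)
    {u : ℂ → ℂ} (hd : DifferentiableOn ℂ u (ball 0 1)) (hm : MemLp u 2 μD) {ε : ℝ} (hε : 0 < ε) :
    ∃ (s : Finset ℕ) (a : ℕ → ℂ), (∀ w ∈ closedBall c0 ρ, ‖comb z s a w‖ ≤ ε) ∧
      ∫ w, ‖u w - comb z s a w‖ ^ 2 ∂μD < ε := by
  have hne : ∀ n, ∀ w ∈ closedBall c0 ρ, 1 - z n * w ≠ 0 :=
    fun n w hw => sub_ne_zero.mpr (hpole n w hw).symm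
  have hkd : ∀ n, DifferentiableOn ℂ (fun w => ((1 - z n * w) ^ 2)⁻¹) (closedBall c0 ρ) :=
    fun n => DifferentiableOn.inv (by fun_prop) fun w hw => pow_ne_zero 2 (hne n w hw)
  have hmax : ∀ (s : Finset ℕ) (a : ℕ → ℂ), (∀ w ∈ sphere c0 ρ, ‖comb z s a w‖ ≤ ε) →
      ∀ w ∈ closedBall c0 ρ, ‖comb z s a w‖ ≤ ε := by
    intro s a h w hw
    have hcd : DifferentiableOn ℂ (comb z s a) (closedBall c0 ρ) :=
      DifferentiableOn.fun_sum fun n _ => (hkd n).const_mul _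
    refine Complex.norm_le_of_forall_mem_frontier_norm_le (U := ball c0 ρ) isBounded_ball
      (hcd.diffContOnCl_ball subset_rfl) ?_ ?_
    · rwa [frontier_ball _ hρ.ne']
    · rwa [closure_ball _ hρ.ne']
  by_contra hcon
  push Not at hcon
  obtain ⟨g, L, N, hgd, hgm, hg, hN, hL, hz0⟩ := exists_pair hz (Γ := sphere c0 ρ)
    (fun n => (isCompact_sphere c0 ρ).exists_bound_of_continuousOn
      ((hkd n).continuousOn.mono sphere_subset_closedBall)) hd hm hε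
    (fun s a h => hcon s a (hmax s a h))
  obtain ⟨w0, hw0, hmin⟩ := (isCompact_closedBall c0 ρ).exists_isMinOn
    ⟨c0, mem_closedBall_self hρ.le⟩ continuous_norm.continuousOn
  have hcj : ∀ x ∈ closedBall (conj c0) ρ, conj x ∈ closedBall c0 ρ := by
    intro x hx
    rw [mem_closedBall, dist_eq_norm] at hx ⊢
    rw [← Complex.norm_conj, map_sub, Complex.conj_conj]
    exact hx
  have D : Data z (conj c0) ρ ‖w0‖ N L g f S c :=
    { hz := hz, hρ := hρ, hR := hΔ w0 hw0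
      hK := fun x hx => by
        have := hmin (hcj x hx)
        simpa using this
      hpole := fun n x hx h0 => hne n _ (hcj x hx) (by simpa using congrArg conj h0)
      hN := hN
      hL := fun ψ C hC h => hL ψ C hC fun w hw => h _ (by
        rw [mem_sphere, dist_eq_norm] at hw ⊢
        rw [← map_sub, Complex.norm_conj]
        exact hw)
      hgd := hgd, hgm := hgm, hz0 := hz0, hfd := hfd, hfm := hfm, hconv := hconv
      hunif := fun e he => by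
        filter_upwards [Metric.tendstoUniformlyOn_iff.mp hunif e he] with j hj x hx
        have h1 := hj _ (hcj x hx)
        have h2 : pj z (S j) (c j) x = conj (comb z (S j) (c j) (conj x)) := by
          simp [pj, comb]
        rw [h2, Complex.norm_conj]
        simpa using h1.le }
  obtain ⟨w, hw, hfw⟩ := hf
  exact hfw (core D hg w hw)

end Pool.Agent.Lib.MP_435399_an.ZO
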